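import Pool.Agent.Q74.BT.Stm

/-!
# Project BT: iteration of the block lemma (JOB Low)
-/

set_option autoImplicit false

namespace Q209.BT

open Finset
open Pool.Agent.Q158.Pair (T)
open Pool.Agent.Q74.AR (oc)
open Pool.Agent.H395R2.G3 (rr)
open Pool.Agent.Q74.BT

/-- `T` is at most two to one -/
theorem T_inj {x y : ℤ} (h : T x = T y) (h2 : x % 2 = y % 2) : x = y := by
  unfold T at h
  split_ifs at h <;> omega

theorem card_T (S : Finset ℤ) : S.card ≤ 2 * (S.image T).card := by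
  have h1 : (S.image (fun x : ℤ => (T x, decide (x % 2 = 0)))).card = S.card := by
    refine card_image_of_injOn ?_
    intro x _ y _ h
    simp only [Prod.mk.injEq, decide_eq_decide] at h
    exact T_inj h.1 (by omega)
  have h2 : S.image (fun x : ℤ => (T x, decide (x % 2 = 0))) ⊆ (S.image T) ×ˢ (univ : Finset Bool) := by
    intro p hp
    obtain ⟨x, hx, rfl⟩ := mem_image.1 hp
    exact mem_product.2 ⟨mem_image_of_mem _ hx, mem_univ _⟩
  have h3 := card_le_card h2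
  rw [h1, card_product, card_univ, Fintype.card_bool] at h3
  omega

theorem card_iter (i : ℕ) (S : Finset ℤ) : S.card ≤ 2 ^ i * (S.image (T^[i])).card := by
  induction i with
  | zero => simp
  | succ i ih =>
    have h1 := card_T (S.image (T^[i]))
    rw [image_image] at h1
    have h2 : T ∘ T^[i] = T^[i + 1] := by
      rw [Function.iterate_succ']
    rw [h2] at h1
    calc S.card ≤ 2 ^ i * (S.image (T^[i])).card := ih
      _ ≤ 2 ^ i * (2 * (S.image (T^[i + 1])).card) := Nat.mul_le_mul_left _ h1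
      _ = 2 ^ (i + 1) * (S.image (T^[i + 1])).card := by rw [pow_succ]; ring

/-- iteration of the block lemma -/
theorem iter_blk {n s : ℕ} (hns : 3 ^ n < 2 ^ s)
    (h : ∀ y : ℤ, ¬ (3 : ℤ) ∣ y → ∃ x : ℤ, ¬ (3 : ℤ) ∣ x ∧ T^[s] x = y ∧ oc s x = n ∧
      |3 ^ n * x - 2 ^ s * y| ≤ 3 ^ n * 2 ^ s) (K : ℕ) (y : ℤ) (hy : ¬ (3 : ℤ) ∣ y) :
    ∃ x : ℤ, ¬ (3 : ℤ) ∣ x ∧ T^[K * s] x = y ∧ oc (K * s) x = K * n ∧
      |(x : ℝ) - ((2 : ℝ) ^ s / 3 ^ n) ^ K * y| ≤
        2 ^ s / ((2 : ℝ) ^ s / 3 ^ n - 1) * (((2 : ℝ) ^ s / 3 ^ n) ^ K - 1) := by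
  have h3n : (0 : ℝ) < 3 ^ n := by positivity
  have hρ : 1 < (2 : ℝ) ^ s / 3 ^ n := by
    rw [one_lt_div h3n]
    exact_mod_cast hns
  set ρ : ℝ := (2 : ℝ) ^ s / 3 ^ n with hρd
  induction K with
  | zero =>
    refine ⟨y, hy, by simp, by simp [oc], ?_⟩
    simp
  | succ K ih =>
    obtain ⟨x, hx1, hx2, hx3, hx4⟩ := ih
    obtain ⟨z, hz1, hz2, hz3, hz4⟩ := h x hx1
    refine ⟨z, hz1, ?_, ?_, ?_⟩
    · rw [Nat.succ_mul, Function.iterate_add_apply, hz2, hx2]
    · rw [show (K + 1) * s = s + K * s by ring, Pool.Agent.Q74.KP.oc_add, hz2, hz3, hx3]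
      ring
    · have h5 : |(3 : ℝ) ^ n * z - 2 ^ s * x| ≤ 3 ^ n * 2 ^ s := by exact_mod_cast hz4
      have h6 : |(z : ℝ) - ρ * x| ≤ 2 ^ s := by
        have h7 : (3 : ℝ) ^ n * z - 2 ^ s * x = 3 ^ n * (z - ρ * x) := by
          rw [hρd]
          field_simp
        rw [h7, abs_mul, abs_of_pos h3n] at h5
        exact le_of_mul_le_mul_left h5 h3n
      have h8 : (z : ℝ) - ρ ^ (K + 1) * y = (z - ρ * x) + ρ * (x - ρ ^ K * y) := by
        rw [pow_succ]
        ring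
      rw [h8]
      have h9 : |(z : ℝ) - ρ * x + ρ * (x - ρ ^ K * y)| ≤ 2 ^ s + ρ * (2 ^ s / (ρ - 1) * (ρ ^ K - 1)) := by
        refine (abs_add_le _ _).trans (add_le_add h6 ?_)
        rw [abs_mul, abs_of_pos (by linarith)]
        exact mul_le_mul_of_nonneg_left hx4 (by linarith)
      refine h9.trans (le_of_eq ?_)
      have h10 : ρ - 1 ≠ 0 := by linarith
      field_simp
      ring

/-- an integer `3 z + 1` in a long real interval -/
theorem count_z (α β : ℝ) : (β - α) / 3 - 1 ≤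
    ((Ico ⌈(α - 1) / 3⌉ ⌈(β - 1) / 3⌉).card : ℝ) := by
  rw [Int.card_Ico]
  have h1 : (β - 1) / 3 ≤ ⌈(β - 1) / 3⌉ := Int.le_ceil _
  have h2 : (⌈(α - 1) / 3⌉ : ℝ) < (α - 1) / 3 + 1 := Int.ceil_lt_add_one _
  have h3 : (⌈(β - 1) / 3⌉ : ℤ) - ⌈(α - 1) / 3⌉ ≤ ((⌈(β - 1) / 3⌉ - ⌈(α - 1) / 3⌉).toNat : ℤ) :=
    Int.self_le_toNat _
  have h4 : (⌈(β - 1) / 3⌉ : ℝ) - ⌈(α - 1) / 3⌉ ≤ ((⌈(β - 1) / 3⌉ - ⌈(α - 1) / 3⌉).toNat : ℝ) := by
    exact_mod_cast h3
  linarith

theorem mem_z {α β : ℝ} {z : ℤ} (h : z ∈ Ico ⌈(α - 1) / 3⌉ ⌈(β - 1) / 3⌉) :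
    α ≤ ((3 * z + 1 : ℤ) : ℝ) ∧ ((3 * z + 1 : ℤ) : ℝ) < β := by
  rw [mem_Ico] at h
  have h1 := Int.ceil_le.1 h.1
  have h2 := Int.lt_ceil.1 h.2
  push_cast
  constructor <;> linarith

theorem nd (z : ℤ) : ¬ (3 : ℤ) ∣ 3 * z + 1 := by omega

section
variable {n s : ℕ} (hns : 3 ^ n < 2 ^ s)
    (h : ∀ y : ℤ, ¬ (3 : ℤ) ∣ y → ∃ x : ℤ, ¬ (3 : ℤ) ∣ x ∧ T^[s] x = y ∧ oc s x = n ∧
      |3 ^ n * x - 2 ^ s * y| ≤ 3 ^ n * 2 ^ s)

include hns h

/-- the preimages which are in the block -/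
theorem blk_in (K L : ℕ) (m z : ℤ)
    (h1 : (m : ℝ) / ((2 : ℝ) ^ s / 3 ^ n) ^ K + 2 ^ s / ((2 : ℝ) ^ s / 3 ^ n - 1) ≤
      ((3 * z + 1 : ℤ) : ℝ))
    (h2 : ((3 * z + 1 : ℤ) : ℝ) <
      ((m : ℝ) + L) / ((2 : ℝ) ^ s / 3 ^ n) ^ K - 2 ^ s / ((2 : ℝ) ^ s / 3 ^ n - 1)) :
    ∃ j : ℕ, j < L ∧ T^[K * s] (m + j) = 3 * z + 1 ∧ oc (K * s) (m + j) = K * n := by
  obtain ⟨x, -, hx2, hx3, hx4⟩ := iter_blk hns h K (3 * z + 1) (nd z)
  have h3n : (0 : ℝ) < 3 ^ n := by positivity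
  have hρ : 1 < (2 : ℝ) ^ s / 3 ^ n := by
    rw [one_lt_div h3n]
    exact_mod_cast hns
  set ρ : ℝ := (2 : ℝ) ^ s / 3 ^ n with hρd
  set C : ℝ := 2 ^ s / (ρ - 1) with hC
  have hC0 : 0 < C := by
    rw [hC]
    have : 0 < ρ - 1 := by linarith
    positivity
  have hρK : 0 < ρ ^ K := by positivity
  have h5 : C * (ρ ^ K - 1) < C * ρ ^ K := by nlinarith
  have h6 := abs_le.1 hx4
  have h7 : (m : ℝ) + C * ρ ^ K ≤ ρ ^ K * ((3 * z + 1 : ℤ) : ℝ) := by
    have := mul_le_mul_of_nonneg_left h1 hρK.le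
    rw [mul_add, mul_div_cancel₀ _ hρK.ne'] at this
    linarith
  have h8 : ρ ^ K * ((3 * z + 1 : ℤ) : ℝ) < (m : ℝ) + L - C * ρ ^ K := by
    have := mul_lt_mul_of_pos_left h2 hρK
    rw [mul_sub, mul_div_cancel₀ _ hρK.ne'] at this
    linarith
  have h9 : (m : ℝ) < x := by linarith
  have h10 : (x : ℝ) < m + L := by linarith
  have h11 : m < x := by exact_mod_cast h9
  have h12 : x < m + L := by exact_mod_cast h10
  refine ⟨(x - m).toNat, by omega, ?_, ?_⟩
  · rw [show m + ((x - m).toNat : ℤ) = x by omega, hx2]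
  · rw [show m + ((x - m).toNat : ℤ) = x by omega, hx3]

theorem low_K (K L : ℕ) (m : ℤ) (hL : 1 ≤ L) :
    (L : ℝ) / ((2 : ℝ) ^ s / 3 ^ n) ^ K / (4 * (2 ^ s / ((2 : ℝ) ^ s / 3 ^ n - 1)) + 6) ≤
      Vn L (K * s) m := by
  have h3n : (0 : ℝ) < 3 ^ n := by positivity
  have hρ : 1 < (2 : ℝ) ^ s / 3 ^ n := by
    rw [one_lt_div h3n]
    exact_mod_cast hns
  have key := blk_in hns h K L m
  set ρ : ℝ := (2 : ℝ) ^ s / 3 ^ n with hρd
  set C : ℝ := 2 ^ s / (ρ - 1) with hC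
  have hC0 : 0 < C := by
    rw [hC]
    have : 0 < ρ - 1 := by linarith
    positivity
  have hρK : 0 < ρ ^ K := by positivity
  have hV1 : (1 : ℝ) ≤ Vn L (K * s) m := by
    have : 0 < Vn L (K * s) m := by
      unfold Vn
      rw [card_pos]
      exact (nonempty_range_iff.2 (by omega)).image _
    exact_mod_cast this
  have hVz : ((L : ℝ) / ρ ^ K - 2 * C) / 3 - 1 ≤ Vn L (K * s) m := by
    set α : ℝ := (m : ℝ) / ρ ^ K + C
    set β : ℝ := ((m : ℝ) + L) / ρ ^ K - C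
    have h1 : (L : ℝ) / ρ ^ K - 2 * C = β - α := by
      simp only [α, β]
      ring
    rw [h1]
    refine (count_z α β).trans ?_
    have h2 : (Ico ⌈(α - 1) / 3⌉ ⌈(β - 1) / 3⌉).card ≤ Vn L (K * s) m := by
      unfold Vn
      refine card_le_card_of_injOn (fun z => 3 * z + 1) ?_ ?_
      · intro z hz
        obtain ⟨hz1, hz2⟩ := mem_z (mem_coe.1 hz)
        obtain ⟨j, hj1, hj2, -⟩ := key z hz1 hz2
        exact mem_coe.2 (mem_image.2 ⟨j, mem_range.2 hj1, hj2⟩)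
      · intro z _ z' _ hzz
        simp only at hzz
        omega
    exact_mod_cast h2
  rw [div_le_iff₀ (by positivity)]
  set D : ℝ := (L : ℝ) / ρ ^ K
  set V : ℝ := (Vn L (K * s) m : ℝ)
  have hD : D ≤ 3 * V + 2 * C + 3 := by linarith
  nlinarith

end

theorem Vn_split (L t i : ℕ) (m : ℤ) : Vn L t m ≤ 2 ^ i * Vn L (t + i) m := by
  unfold Vn
  refine (card_iter i _).trans (le_of_eq ?_)
  rw [image_image]
  congr 2
  refine image_congr ?_
  intro j _
  show T^[i] (T^[t] (m + j)) = T^[t + i] (m + j)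
  rw [add_comm t i, Function.iterate_add_apply]

theorem G_pos {γ : ℝ} (hγ : IsG γ) : 0 < γ := by linarith [hγ.1]

theorem rho_exp {n s : ℕ} (K : ℕ) : ((2 : ℝ) ^ s / 3 ^ n) ^ K =
    Real.exp (((s : ℝ) * Real.log 2 - n * Real.log 3) * K) := by
  rw [mul_comm, Real.exp_nat_mul, Real.exp_sub, Real.exp_nat_mul, Real.exp_nat_mul,
    Real.exp_log (by norm_num), Real.exp_log (by norm_num)]

theorem lowAll (hB : S_Blk) : S_LowAll := by
  intro γ hγ ε hε
  obtain ⟨n, s, hn, hns, hle, h⟩ := hB γ hγ ε hε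
  have hγ0 := G_pos hγ
  have h3n : (0 : ℝ) < 3 ^ n := by positivity
  have hρ : 1 < (2 : ℝ) ^ s / 3 ^ n := by
    rw [one_lt_div h3n]
    exact_mod_cast hns
  set B : ℝ := 4 * (2 ^ s / ((2 : ℝ) ^ s / 3 ^ n - 1)) + 6 with hBd
  have hB0 : 0 < B := by
    have : 0 < (2 : ℝ) ^ s / 3 ^ n - 1 := by linarith
    rw [hBd]
    positivity
  have hs : 0 < s := by
    rcases Nat.eq_zero_or_pos s with h0 | h0
    · rw [h0] at hns
      have := Nat.one_le_pow n 3 (by norm_num)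
      omega
    · exact h0
  refine ⟨1 / (B * 2 ^ s), by positivity, ?_⟩
  intro L t m hL
  have h1 := low_K hns h (t / s) L m hL
  rw [← hBd, rho_exp] at h1
  have h2 := Vn_split L (t / s * s) (t % s) m
  rw [Nat.div_add_mod' t s] at h2
  have h3 : (Vn L (t / s * s) m : ℝ) ≤ 2 ^ s * Vn L t m := by
    have h4 : Vn L (t / s * s) m ≤ 2 ^ s * Vn L t m :=
      h2.trans (Nat.mul_le_mul_right _ (Nat.pow_le_pow_right (by norm_num) (Nat.mod_lt _ hs).le))
    exact_mod_cast h4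
  have h5 : ((s : ℝ) * Real.log 2 - n * Real.log 3) * ((t / s : ℕ) : ℝ) ≤ (1 / γ + ε) * t := by
    have h6 : ((t / s : ℕ) : ℝ) * s ≤ t := by exact_mod_cast Nat.div_mul_le_self t s
    calc ((s : ℝ) * Real.log 2 - n * Real.log 3) * ((t / s : ℕ) : ℝ)
        ≤ ((1 / γ + ε) * s) * ((t / s : ℕ) : ℝ) := mul_le_mul_of_nonneg_right hle (by positivity)
      _ = (1 / γ + ε) * (((t / s : ℕ) : ℝ) * s) := by ring
      _ ≤ (1 / γ + ε) * t := mul_le_mul_of_nonneg_left h6 (by positivity)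
  have h7 : Real.exp (-((1 / γ + ε) * t)) ≤
      1 / Real.exp (((s : ℝ) * Real.log 2 - n * Real.log 3) * ((t / s : ℕ) : ℝ)) := by
    have h8 : Real.exp (-((1 / γ + ε) * t)) ≤
        (Real.exp (((s : ℝ) * Real.log 2 - n * Real.log 3) * ((t / s : ℕ) : ℝ)))⁻¹ := by
      rw [← Real.exp_neg]
      exact Real.exp_le_exp.2 (by linarith)
    exact h8.trans (le_of_eq (one_div _).symm)
  calc 1 / (B * 2 ^ s) * L * Real.exp (-((1 / γ + ε) * t))
      ≤ 1 / (B * 2 ^ s) * L * (1 / Real.exp (((s : ℝ) * Real.log 2 - n * Real.log 3) *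
          ((t / s : ℕ) : ℝ))) := mul_le_mul_of_nonneg_left h7 (by positivity)
    _ = 1 / 2 ^ s * ((L : ℝ) / Real.exp (((s : ℝ) * Real.log 2 - n * Real.log 3) *
          ((t / s : ℕ) : ℝ)) / B) := by
        field_simp
    _ ≤ 1 / 2 ^ s * (2 ^ s * Vn L t m) := mul_le_mul_of_nonneg_left (h1.trans h3) (by positivity)
    _ = Vn L t m := by
        field_simp

theorem topAll (hB : S_Blk) : S_TopAll := by
  intro γ hγ ε hε
  have hγ0 := G_pos hγ
  set e : ℝ := min ε 1 with he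
  have he0 : 0 < e := lt_min hε one_pos
  have he1 : e ≤ 1 := min_le_right _ _
  have hee : e ≤ ε := min_le_left _ _
  set e' : ℝ := min e (e / (4 * γ)) with he'
  have he'0 : 0 < e' := lt_min he0 (by positivity)
  have he'1 : e' ≤ e := min_le_left _ _
  have he'2 : γ * e' ≤ e / 4 := by
    have h1 : e' ≤ e / (4 * γ) := min_le_right _ _
    calc γ * e' ≤ γ * (e / (4 * γ)) := mul_le_mul_of_nonneg_left h1 hγ0.le
      _ = e / 4 := by field_simp
  obtain ⟨n, s, hn, hns, hle, h⟩ := hB γ hγ e' he'0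
  have h3n : (0 : ℝ) < 3 ^ n := by positivity
  have hρ : 1 < (2 : ℝ) ^ s / 3 ^ n := by
    rw [one_lt_div h3n]
    exact_mod_cast hns
  have hs : 0 < s := by
    rcases Nat.eq_zero_or_pos s with h0 | h0
    · rw [h0] at hns
      have := Nat.one_le_pow n 3 (by norm_num)
      omega
    · exact h0
  have hs' : (0 : ℝ) < s := by exact_mod_cast hs
  set C : ℝ := 2 ^ s / ((2 : ℝ) ^ s / 3 ^ n - 1) with hC
  have hC0 : 0 < C := by
    have : 0 < (2 : ℝ) ^ s / 3 ^ n - 1 := by linarith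
    rw [hC]
    positivity
  -- the frequency
  have hfreq : (rr γ - ε) * s ≤ n := by
    have h1 := Pool.Agent.H395R2.G3.rr_spec γ
    have hl3 : (1 : ℝ) < Real.log 3 := by
      have := Real.log_three_gt_d9
      linarith
    rw [h1] at hle
    have h2 : (rr γ * Real.log 3 - e') * s ≤ n * Real.log 3 := by nlinarith
    have h3 : (rr γ - e') * s * Real.log 3 ≤ n * Real.log 3 := by
      refine le_trans ?_ h2
      nlinarith [mul_pos he'0 hs']
    have h4 : (rr γ - e') * s ≤ n := le_of_mul_le_mul_right h3 (by linarith)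
    nlinarith
  -- the size of `L`
  have hlim : Filter.Tendsto (fun L : ℕ => Real.log (L : ℝ)) Filter.atTop Filter.atTop :=
    Real.tendsto_log_atTop.comp tendsto_natCast_atTop_atTop
  obtain ⟨L₀, hL₀⟩ := Filter.eventually_atTop.1
    (hlim.eventually_ge_atTop (max (2 * s / (e * γ)) (4 * Real.log (2 * C + 4) / e) ⊔ 1))
  refine ⟨L₀ + 1, fun L hL => ?_⟩
  have hlog := hL₀ L (by omega)
  have hl1 : 2 * s / (e * γ) ≤ Real.log L :=
    le_trans (le_trans (le_max_left _ _) le_sup_left) hlog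
  have hl2 : 4 * Real.log (2 * C + 4) / e ≤ Real.log L :=
    le_trans (le_trans (le_max_right _ _) le_sup_left) hlog
  have hl3 : 1 ≤ Real.log L := le_trans le_sup_right hlog
  have hL0 : (0 : ℝ) < L := by
    have : 0 < L := by omega
    exact_mod_cast this
  set x : ℝ := (1 - e / 2) * (γ * Real.log L) / s with hx
  have hx0 : 0 ≤ x := by
    have : 0 ≤ 1 - e / 2 := by linarith
    rw [hx]
    positivity
  set K : ℕ := ⌊x⌋₊ with hK
  have hK1 : (K : ℝ) ≤ x := Nat.floor_le hx0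
  have hK2 : x < K + 1 := Nat.lt_floor_add_one x
  have hxs : x * s = (1 - e / 2) * (γ * Real.log L) := by
    rw [hx]
    field_simp
  have hKs1 : (K : ℝ) * s ≤ (1 - e / 2) * (γ * Real.log L) := by
    rw [← hxs]
    exact mul_le_mul_of_nonneg_right hK1 hs'.le
  have hKs2 : (1 - e / 2) * (γ * Real.log L) ≤ K * s + s := by
    rw [← hxs]
    nlinarith
  have hγL : 0 < γ * Real.log L := by positivity
  have hl1' : 2 * s ≤ e * (γ * Real.log L) := by
    rw [div_le_iff₀ (by positivity)] at hl1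
    linarith
  refine ⟨K * s, ?_, ?_, ?_⟩
  · push_cast
    have h1 : (1 - ε) * (γ * Real.log L) ≤ (1 - e) * (γ * Real.log L) :=
      mul_le_mul_of_nonneg_right (by linarith) hγL.le
    nlinarith
  · push_cast
    nlinarith
  · intro m
    have hρK : ((2 : ℝ) ^ s / 3 ^ n) ^ K * (2 * C + 4) ≤ L := by
      rw [rho_exp]
      have h1 : ((s : ℝ) * Real.log 2 - n * Real.log 3) * K ≤ (1 - e / 4) * Real.log L := by
        calc ((s : ℝ) * Real.log 2 - n * Real.log 3) * K ≤ ((1 / γ + e') * s) * K :=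
              mul_le_mul_of_nonneg_right hle (by positivity)
          _ = (1 / γ + e') * (K * s) := by ring
          _ ≤ (1 / γ + e') * ((1 - e / 2) * (γ * Real.log L)) :=
              mul_le_mul_of_nonneg_left hKs1 (by positivity)
          _ = (1 + γ * e') * (1 - e / 2) * Real.log L := by
              field_simp
          _ ≤ (1 + e / 4) * (1 - e / 2) * Real.log L := by
              refine mul_le_mul_of_nonneg_right (mul_le_mul_of_nonneg_right ?_ ?_) ?_ <;> linarith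
          _ ≤ (1 - e / 4) * Real.log L := by
              refine mul_le_mul_of_nonneg_right ?_ (by linarith)
              nlinarith
      have h2 : Real.log (2 * C + 4) ≤ e / 4 * Real.log L := by
        rw [div_le_iff₀ he0] at hl2
        linarith
      calc Real.exp (((s : ℝ) * Real.log 2 - n * Real.log 3) * K) * (2 * C + 4)
          ≤ Real.exp ((1 - e / 4) * Real.log L) * Real.exp (e / 4 * Real.log L) := by
            refine mul_le_mul (Real.exp_le_exp.2 h1) ?_ (by positivity) (Real.exp_pos _).le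
            rw [← Real.log_le_iff_le_exp (by positivity)]
            exact h2
        _ = L := by
            rw [← Real.exp_add, show (1 - e / 4) * Real.log L + e / 4 * Real.log L = Real.log L by ring,
              Real.exp_log hL0]
    have key := blk_in hns h K L m
    rw [← hC] at key
    have hρK0 : 0 < ((2 : ℝ) ^ s / 3 ^ n) ^ K := by positivity
    set R : ℝ := ((2 : ℝ) ^ s / 3 ^ n) ^ K
    have h1 : 2 * C + 4 ≤ L / R := by
      rw [le_div_iff₀ hρK0]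
      linarith
    have h2 := count_z ((m : ℝ) / R + C) (((m : ℝ) + L) / R - C)
    have h3 : ((m : ℝ) + L) / R - C - ((m : ℝ) / R + C) = L / R - 2 * C := by ring
    rw [h3] at h2
    have h4 : (0 : ℝ) < ((Ico ⌈((m : ℝ) / R + C - 1) / 3⌉ ⌈(((m : ℝ) + L) / R - C - 1) / 3⌉).card : ℝ) := by
      linarith
    have h5 : 0 < (Ico ⌈((m : ℝ) / R + C - 1) / 3⌉ ⌈(((m : ℝ) + L) / R - C - 1) / 3⌉).card := by
      exact_mod_cast h4
    obtain ⟨z, hz⟩ := card_pos.1 h5
    obtain ⟨hz1, hz2⟩ := mem_z hz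
    obtain ⟨j, hj1, -, hj3⟩ := key z hz1 hz2
    refine ⟨j, hj1, ?_⟩
    rw [hj3]
    push_cast
    have h6 := mul_le_mul_of_nonneg_left hfreq (Nat.cast_nonneg (α := ℝ) K)
    linarith

theorem low (h : S_Blk) : S_LowAll ∧ S_TopAll := ⟨lowAll h, topAll h⟩

end Q209.BT
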